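import Pool.Agent.Helper54.DP.GAD

/-! The curve gadget for algebraic sets: no negated constraint is used. -/

namespace Pool.Agent.Helper30.DP

open Finset Filter Topology
open Pool.Agent.Helper54.ETR hiding Cons
open Pool.Agent.Helper54.Poly
open Pool.Agent.Helper54.DI hiding PP Gad Tpl ST_PPAND ST_PPRE ST_PPEX ST_PPTRUE ST_PPALL ST_PPLE
  ST_PPAFF ST_PPREL ST_PPOUT ST_PPTUP ST_GAD ST_TPL ST_SND ST_CPL ST_INSC ST_ITM ST_TPF ST_HARD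
open Pool.Agent.Helper54.DP Pool.Agent.Helper54.DP.GAD

theorem st_GADP (hAND : ST_PPAND) (hRE : ST_PPRE) (hEX : ST_PPEX) (hALL : ST_PPALL)
    (hLE : ST_PPLE) (hAFF : ST_PPAFF) (hREL : ST_PPREL) : ST_GADP := by
  intro Γ ρf k hmem hbel ⟨a, b, C, l, y0, u, ρ, f, hρ, hf, h2, hiff⟩
  have hA : PP Γ (fun v : Fin k → ℝ => ρf.Holds (ext0 v)) := (hREL Γ ρf k hbel).1 hmem
  have habs : PP Γ (fun v : Fin 3 → ℝ => |v 0| ≤ (ρ : ℝ)) := by
    refine GAD_pcongr (hAND Γ _ _ _ (GAD_le hLE Γ (GAD_var 0) (GAD_const ρ))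
      (GAD_le hLE Γ (GAD_smul (-1) (GAD_var 0)) (GAD_const ρ))) fun v => ?_
    rw [abs_le']
    push_cast
    simp
  refine GAD_fin hAFF Γ f ρ 1 (fun v => (|v 0| ≤ (ρ : ℝ) ∧ ∃ P : Fin k → ℝ,
    ρf.Holds (ext0 P) ∧ Bx a b P ∧ (∀ j ∈ C, P j = y0 j + v 0 * u j) ∧ P l = v 1) ∧ 0 ≤ v 2) ?_
    (by exact_mod_cast hρ) one_pos hf h2 ?_ ?_
  · refine hAND Γ _ _ _ (hAND Γ _ _ _ habs ?_) ?_
    · refine GAD_pcongr (hEX Γ (Fin 3) (Fin k) (fun z : Fin 3 ⊕ Fin k → ℝ =>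
        ρf.Holds (ext0 fun i => z (Sum.inr i)) ∧
        (∀ i : Fin k, (a i : ℝ) ≤ z (Sum.inr i) ∧ z (Sum.inr i) ≤ b i) ∧
        (∀ j : Fin k, j ∈ C → z (Sum.inr j) = y0 j + z (Sum.inl 0) * u j) ∧
        z (Sum.inr l) = z (Sum.inl 1)) ?_) ?_
      · refine hAND Γ _ _ _ ?_ (hAND Γ _ _ _ ?_ (hAND Γ _ _ _ ?_ ?_))
        · exact hRE Γ (Fin 3 ⊕ Fin k) (Fin k) _ Sum.inr hA
        · exact hALL Γ _ k _ fun i => hAND Γ _ _ _
            (GAD_le hLE Γ (GAD_const (a i)) (GAD_var _)) (GAD_le hLE Γ (GAD_var _) (GAD_const (b i)))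
        · refine hALL Γ _ k _ fun j => GAD_imp hLE _ (GAD_eq hLE hAND Γ (GAD_var _) ?_)
          refine GAD_congr (GAD_add (GAD_const (y0 j)) (GAD_smul (u j) (GAD_var (Sum.inl 0))))
            fun v => ?_
          ring
        · exact GAD_eq hLE hAND Γ (GAD_var _) (GAD_var _)
      · intro v
        constructor
        · rintro ⟨P, h1, h2, h3, h4⟩
          exact ⟨P, h1, h2, h3, h4⟩
        · rintro ⟨P, h1, h2, h3, h4⟩
          exact ⟨P, h1, h2, h3, h4⟩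
    · refine GAD_pcongr (GAD_le hLE Γ (GAD_const 0) (GAD_var 2)) fun v => ?_
      simp
  · rintro v ⟨⟨hv, P, h1, h2, h3, h4⟩, hv2⟩
    refine ⟨hv, ?_⟩
    have h5 := (hiff (v 0) (v 1) hv).1 ⟨P, h1, h2, h3, h4⟩
    rw [h5]
    simpa using hv2
  · intro x ε hx h0 _
    obtain ⟨P, h1, h2, h3, h4⟩ := (hiff x (f x) hx).2 rfl
    refine ⟨⟨by simpa using hx, P, h1, h2, ?_, ?_⟩, by simpa using h0.le⟩
    · intro j hj
      simpa using h3 j hj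
    · simpa using h4

end Pool.Agent.Helper30.DP
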