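import Pool.Agent.Helper54.DI.StmtsB

/-! The hardness half of the dichotomy: a curve gadget gives a polynomial time reduction of the
existential theory of the reals to conjunctions of constraints. -/

namespace Pool.Agent.Helper30.DI

open Pool.Agent.Helper54.DI Pool.Agent.Helper54.ETR Pool.Agent.Helper54.Poly

/-- a common exponent for the two constants of the gadget -/
theorem exists_c0 (r C : ℝ) (hr : 0 < r) : ∃ c0 : ℕ, C ≤ 2 ^ c0 ∧ 1 ≤ r * 2 ^ c0 := by
  obtain ⟨a, ha⟩ := pow_unbounded_of_one_lt C (one_lt_two)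
  obtain ⟨b, hb⟩ := pow_unbounded_of_one_lt (1 / r) (one_lt_two)
  refine ⟨a + b, ?_, ?_⟩
  · refine ha.le.trans ?_
    exact pow_le_pow_right₀ one_le_two (Nat.le_add_right a b)
  · have h1 : (1 / r) ≤ 2 ^ (a + b) := by
      refine hb.le.trans ?_
      exact pow_le_pow_right₀ one_le_two (Nat.le_add_left b a)
    calc (1 : ℝ) = r * (1 / r) := by field_simp
      _ ≤ r * 2 ^ (a + b) := mul_le_mul_of_nonneg_left h1 hr.le

theorem st_HARD (hTPL : ST_TPL) (hSND : ST_SND) (hCPL : ST_CPL) (hINSC : ST_INSC)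
    (hITM : ST_ITM) (hTPF : ST_TPF) (hPTINST : ST_PTINST) (hPTITM : ST_PTITM) (hEK : ST_EK) :
    ST_HARD := by
  intro Γ hG
  obtain ⟨r, C, AP, GM, hT⟩ := hTPL Γ hG
  obtain ⟨c0, hC, hr⟩ := exists_c0 r C hT.r0
  obtain ⟨c, hc⟩ : ∃ c, c = 2 * c0 + 10 := ⟨_, rfl⟩
  obtain ⟨L, N, hL6, hLF, hN, t0, t1, t2, t3, t4, t5⟩ := hTPF Γ r C AP GM hT
  obtain ⟨EK, hEKP, hEKs⟩ := hEK
  have hP := hPTITM c (List Bool) EK hEKP
  have hI : PT (fun u : List Bool =>
      (inst L (j2 c (EK u).length + 4 + (EK u).length) N 0 (items c (EK u))).toks) :=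
    hPTINST L N (List Bool) (fun u => j2 c (EK u).length + 4 + (EK u).length)
      (fun u => items c (EK u)) hP.2 hP.1
  have hf : PT (fun u : List Bool =>
      (inst L (j2 c (EK u).length + 4 + (EK u).length) N 0 (items c (EK u))).toks.flatMap
        Tok.bits) := PTbits hI
  refine ⟨fun u => (inst L (j2 c (EK u).length + 4 + (EK u).length) N 0
    (items c (EK u))).toks.flatMap Tok.bits, polytime_list (fun l : List Bool => l) _
    (fun l => ((inst L (j2 c (EK l).length + 4 + (EK l).length) N 0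
      (items c (EK l))).toks.flatMap Tok.bits).reverse) (PT.reverse hf) fun _ => rfl, ?_⟩
  intro u
  obtain ⟨E, hE, hB, hBl, hiff⟩ := hEKs u
  have hlen : (EK u).length = E.length := by rw [hE, List.length_map]
  refine ⟨inst L (j2 c (EK u).length + 4 + (EK u).length) N 0 (items c (EK u)), rfl,
    hINSC Γ L _ N (fun ψ hψ => (hLF ψ hψ).2) _ _, ?_⟩
  rw [hiff, hlen, hE,
    hITM Γ r AP GM L N hL6 (fun ψ hψ => (hLF ψ hψ).1) hN t0 t1 t2 t3 t4 t5 c E hB hBl]
  exact ⟨hCPL Γ r C AP GM hT c0 hC hr c hc.ge E hB hBl,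
    hSND Γ r C AP GM hT c0 hC hr c hc.ge E hB hBl⟩

end Pool.Agent.Helper30.DI
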